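import Pool.Agent.J6H9.AC.Est
import Pool.Agent.J6H9.AS.Core
import Pool.Agent.W528.HG.Est
import Pool.Agent.W308.HG.AV

/-!
# The estimate of mixed character sums over affine space: forms linear in all variables but one

Adapted from `Pool.Agent.J6H9.AC.Est` and from the starting file `Pool.Agent.W528.HG.Est` (two variables).
-/

set_option autoImplicit false

namespace Pool.Agent.J6H9.AS

open Finset Polynomial Pool.Agent.W528.HA Pool.Agent.W528.HB Pool.Agent.W528.HD Pool.Agent.W528.HG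
  Pool.Agent.W800.HA.GD Pool.Agent.J6H9.AC

section

variable {c : ℕ} [Fact c.Prime]

/-- sums over affine space, with an additive character -/
theorem ge_multiA (L : Type) [Field L] [Fintype L] [CharP L c]
    (ψ : AddChar L (PadicAlgCl c)) (hψ : ψ.IsPrimitive) (D : ℕ) {σ : Type} [Fintype σ]
    [DecidableEq σ] (ι : Type) [Fintype ι]
    (l : ι → σ → L) (f : ι → L[X]) (hf : ∀ i, (f i).natDegree ≤ D)
    (χ : ι → MulChar L (PadicAlgCl c)) (hχ : ∀ i, χ i ≠ 1) (l0 : σ → L) (G : L[X])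
    (hG : G.natDegree ≤ D) (B : ℝ) (hB : 0 ≤ B)
    (hb : ∀ g : L[X], g.natDegree ≤ D → ‖∑ t : L, ψ (g.eval t)‖ ≤ B) :
    (∏ i, ‖gaussSum (χ i)⁻¹ ψ‖) *
        ‖∑ v : σ → L, ∑ t : L, ψ (frm l0 G v t) * ∏ i, χ i (frm (l i) (f i) v t)‖
      ≤ ‖((Fintype.card L : ℕ) : PadicAlgCl c)‖ ^ Fintype.card σ * B := by
  classical
  have h1 : ∀ (v : σ → L) (t : L), (∏ i, gaussSum (χ i)⁻¹ ψ) *
      (ψ (frm l0 G v t) * ∏ i, χ i (frm (l i) (f i) v t))
      = ∑ u : ι → L, (∏ i, (χ i)⁻¹ (u i)) *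
        (ψ (∑ j, v j * (l0 j + ∑ i, u i * l i j)) * ψ ((G + ∑ i, C (u i) * f i).eval t)) := by
    intro v t
    rw [mul_left_comm, ← prod_mul_distrib]
    have h2 : ∀ i, gaussSum (χ i)⁻¹ ψ * χ i (frm (l i) (f i) v t)
        = ∑ s : L, (χ i)⁻¹ s * ψ (s * frm (l i) (f i) v t) := fun i => one (χ i) ψ (hχ i) _
    rw [prod_congr rfl (fun i _ => h2 i), Finset.prod_univ_sum, Fintype.piFinset_univ, mul_sum]
    apply sum_congr rfl
    intro u _
    rw [prod_mul_distrib, mul_left_comm]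
    congr 1
    rw [← msum, ← AddChar.map_add_eq_mul, ← AddChar.map_add_eq_mul]
    congr 1
    rw [eval_add, eval_finset_sum]
    have h5 : ∑ j, v j * (l0 j + ∑ i, u i * l i j) =
        ∑ j, l0 j * v j + ∑ i, u i * ∑ j, l i j * v j := by
      simp only [mul_add, sum_add_distrib]
      congr 1
      · exact sum_congr rfl fun j _ => mul_comm _ _
      · simp only [mul_sum]
        rw [sum_comm]
        exact sum_congr rfl fun i _ => sum_congr rfl fun j _ => by ring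
    have h6 : ∑ i, u i * frm (l i) (f i) v t = ∑ i, u i * ∑ j, l i j * v j +
        ∑ i, (C (u i) * f i).eval t := by
      rw [← sum_add_distrib]
      apply sum_congr rfl
      intro i _
      rw [eval_mul, eval_C, frm]
      ring
    rw [h5, h6, frm]
    ring
  have key : (∏ i, gaussSum (χ i)⁻¹ ψ) *
      ∑ v : σ → L, ∑ t : L, ψ (frm l0 G v t) * ∏ i, χ i (frm (l i) (f i) v t)
      = ∑ u : ι → L, (∏ i, (χ i)⁻¹ (u i)) *
        ((∑ v : σ → L, ψ (∑ j, v j * (l0 j + ∑ i, u i * l i j))) *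
        (∑ t : L, ψ ((G + ∑ i, C (u i) * f i).eval t))) := by
    rw [mul_sum]
    have h3 : ∀ v : σ → L, (∏ i, gaussSum (χ i)⁻¹ ψ) *
        ∑ t : L, ψ (frm l0 G v t) * ∏ i, χ i (frm (l i) (f i) v t)
        = ∑ u : ι → L, (∏ i, (χ i)⁻¹ (u i)) * (ψ (∑ j, v j * (l0 j + ∑ i, u i * l i j)) *
          (∑ t : L, ψ ((G + ∑ i, C (u i) * f i).eval t))) := by
      intro v
      rw [mul_sum, sum_congr rfl (fun t _ => h1 v t), sum_comm]
      apply sum_congr rfl
      intro u _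
      rw [← mul_sum, ← mul_sum]
    rw [sum_congr rfl (fun v _ => h3 v), sum_comm]
    apply sum_congr rfl
    intro u _
    rw [← mul_sum, ← sum_mul]
  rw [← norm_prod, ← norm_mul, key]
  apply IsUltrametricDist.norm_sum_le_of_forall_le_of_nonneg
    (mul_nonneg (pow_nonneg (norm_nonneg _) _) hB)
  intro u _
  rw [norm_mul, norm_mul]
  have h4 : ‖∏ i, (χ i)⁻¹ (u i)‖ ≤ 1 := by
    rw [norm_prod]
    exact prod_le_one (fun i _ => norm_nonneg _) fun i _ => mulChar_norm_le _ _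
  have h5 := lin_norm L ψ hψ (fun j => l0 j + ∑ i, u i * l i j)
  have h6 : ‖∑ t : L, ψ ((G + ∑ i, C (u i) * f i).eval t)‖ ≤ B := by
    apply hb
    apply natDegree_add_le_of_degree_le hG
    apply natDegree_sum_le_of_forall_le
    intro i _
    exact (natDegree_C_mul_le _ _).trans (hf i)
  calc _ ≤ 1 * (‖((Fintype.card L : ℕ) : PadicAlgCl c)‖ ^ Fintype.card σ * B) :=
        mul_le_mul h4 (mul_le_mul h5 h6 (norm_nonneg _) (pow_nonneg (norm_nonneg _) _))
          (mul_nonneg (norm_nonneg _) (norm_nonneg _)) zero_le_one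
    _ = _ := one_mul _

theorem two_estMA (hGN : GN) (hONE : ONE) (hDG : DG) (hDI : DI)
    {L : Type} [Field L] [Fintype L] [CharP L c]
    (w : MulChar L (PadicAlgCl c)) (ψ : AddChar L (PadicAlgCl c)) (hψ : ψ.IsPrimitive)
    (hψc : ∀ y, ψ (y ^ c) = ψ y)
    (hw : ‖((c : ℕ) : PadicAlgCl c)‖ ≤ ‖gaussSum w⁻¹ ψ‖ ^ (c - 1)) {N F : ℕ}
    (hF : Fintype.card L = c ^ F) (hN : N ∣ Fintype.card L - 1) (hF0 : 0 < F)
    (hne : ∀ b, 1 ≤ b → b < N → (w ^ ((Fintype.card L - 1) / N)) ^ b ≠ 1)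
    {D : ℕ} (hD : 1 ≤ D) {σ : Type} [Fintype σ] [DecidableEq σ] (ι : Type) [Fintype ι]
    (l : ι → σ → L) (f : ι → L[X])
    (hf : ∀ i, (f i).natDegree ≤ D) (b : ι → ℕ) (hb : ∀ i, 1 ≤ b i ∧ b i < N)
    (l0 : σ → L) (G : L[X]) (hG : G.natDegree ≤ D) :
    ‖∑ v : σ → L, ∑ t : L, ψ (frm l0 G v t) *
        ∏ i, ((w ^ ((Fintype.card L - 1) / N)) ^ b i) (frm (l i) (f i) v t)‖ ^ (D * N)
        * ‖((c : ℕ) : PadicAlgCl c)‖ ^ (D * ∑ i, ∑ e ∈ range F, (b i * c ^ e) % N)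
      ≤ ‖((c : ℕ) : PadicAlgCl c)‖ ^ (F * (Fintype.card σ * D + 1) * N) := by
  classical
  set T := w ^ ((Fintype.card L - 1) / N) with hT
  set ρ := ‖((c : ℕ) : PadicAlgCl c)‖ with hρ
  set q := ‖((Fintype.card L : ℕ) : PadicAlgCl c)‖ with hq
  have hq0 : 0 < q := norm_card_pos (c := c) (L := L)
  set B := q ^ ((D : ℝ)⁻¹) with hBdef
  have hD0 : D ≠ 0 := by omega
  have hB0 : 0 ≤ B := Real.rpow_nonneg hq0.le _
  have hBD : B ^ D = q := by
    rw [hBdef, ← Real.rpow_natCast, ← Real.rpow_mul hq0.le,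
      inv_mul_cancel₀ (by exact_mod_cast hD0), Real.rpow_one]
  set X := ‖∑ v : σ → L, ∑ t : L, ψ (frm l0 G v t) *
    ∏ i, (T ^ b i) (frm (l i) (f i) v t)‖ with hX
  set P := ∏ i, ‖gaussSum (T ^ b i)⁻¹ ψ‖ with hP
  have hX0 : 0 ≤ X := norm_nonneg _
  have hP0 : 0 ≤ P := prod_nonneg fun i _ => norm_nonneg _
  have h1 : P * X ≤ q ^ Fintype.card σ * B := by
    refine ge_multiA L ψ hψ D ι l f hf (fun i => T ^ b i) (fun i => hne (b i) (hb i).1 (hb i).2)
      l0 G hG B hB0 ?_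
    intro g hg
    have := (hONE c L ψ hψ D hD g hg).1
    rw [← hq, ← hBD] at this
    exact le_of_pow_le_pow_left₀ hD0 hB0 this
  have h2 : (P * X) ^ D ≤ q ^ (Fintype.card σ * D + 1) := by
    calc (P * X) ^ D ≤ (q ^ Fintype.card σ * B) ^ D :=
          pow_le_pow_left₀ (mul_nonneg hP0 hX0) h1 D
      _ = q ^ (Fintype.card σ * D + 1) := by rw [mul_pow, hBD, ← pow_mul, pow_succ]
  have h3 : ρ ^ (∑ i, ∑ e ∈ range F, (b i * c ^ e) % N) ≤ P ^ N := by
    rw [← prod_pow_eq_pow_sum, hP, ← prod_pow]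
    apply prod_le_prod
    · intro i _
      exact pow_nonneg (norm_nonneg _) _
    · intro i _
      exact norm_gauss hDG hDI w ψ hψ hψc hw hF hN hF0 (b i) (hb i).2
  have hρ0 : 0 ≤ ρ := norm_nonneg _
  have h4 : q = ρ ^ F := by
    rw [hq, hF]
    push_cast
    rw [norm_pow]
  calc X ^ (D * N) * ρ ^ (D * ∑ i, ∑ e ∈ range F, (b i * c ^ e) % N)
      = X ^ (D * N) * (ρ ^ (∑ i, ∑ e ∈ range F, (b i * c ^ e) % N)) ^ D := by
        have h9 : ρ ^ (D * ∑ i, ∑ e ∈ range F, (b i * c ^ e) % N)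
            = (ρ ^ (∑ i, ∑ e ∈ range F, (b i * c ^ e) % N)) ^ D := by
          rw [mul_comm D, pow_mul]
        rw [h9]
    _ ≤ X ^ (D * N) * (P ^ N) ^ D := by
        apply mul_le_mul_of_nonneg_left _ (pow_nonneg hX0 _)
        exact pow_le_pow_left₀ (pow_nonneg hρ0 _) h3 _
    _ = ((P * X) ^ D) ^ N := by
        rw [mul_pow, mul_pow, ← pow_mul, ← pow_mul, ← pow_mul, mul_comm N D]
        ring
    _ ≤ (q ^ (Fintype.card σ * D + 1)) ^ N := pow_le_pow_left₀ (pow_nonneg (mul_nonneg hP0 hX0) _) h2 N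
    _ = ρ ^ (F * (Fintype.card σ * D + 1) * N) := by rw [h4, ← pow_mul, ← pow_mul, ← mul_assoc]

end

/-- The sum over `(v, t) ∈ L^σ × L` of the value at `∏ (l_i v + f_i(t)) ^ e_i` of the character
of order `N` of `L` belonging to `z ↦ μ`, times `ν ^ Tr(l_0 v + G(t))`. -/
noncomputable def mSumA (L : Type) [Field L] [Fintype L] (R : Type) [CommRing R] {σ : Type} [Fintype σ]
    [DecidableEq σ] {ι : Type}
    [Fintype ι] (N c : ℕ) (l : ι → σ → L) (f : ι → L[X]) (e : ι → ℕ) (l0 : σ → L) (G : L[X]) (z : L)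
    (μ ν : R) : R :=
  ∑ v : σ → L, ∑ t : L, kv N z μ
    ((∏ i, (frm (l i) (f i) v t) ^ e i) ^ ((Fintype.card L - 1) / N)) * av L R c ν (frm l0 G v t)

lemma map_mSumA {L : Type} [Field L] [Fintype L] {R R' : Type} [CommRing R] [CommRing R']
    {σ : Type} [Fintype σ] [DecidableEq σ]
    {ι : Type} [Fintype ι] (g : R →+* R') (N c : ℕ) (l : ι → σ → L) (f : ι → L[X]) (e : ι → ℕ)
    (l0 : σ → L) (G : L[X]) (z : L) (μ ν : R) :
    g (mSumA L R N c l f e l0 G z μ ν) = mSumA L R' N c l f e l0 G z (g μ) (g ν) := by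
  unfold mSumA
  rw [map_sum]
  refine sum_congr rfl fun x _ => ?_
  rw [map_sum]
  refine sum_congr rfl fun t _ => ?_
  rw [map_mul, map_av, map_kv g N z μ _]

theorem mSumA_eq {N c : ℕ} (hN : 2 ≤ N) (L : Type) [Field L] [Fintype L] {R : Type} [CommRing R]
    (T : MulChar L R) (hT : T ^ N = 1) {z : L} {ω : R}
    (hTz : ∀ (b : ℕ) (y : L), 1 ≤ b → T y ^ b = kv N z (ω ^ b) (y ^ ((Fintype.card L - 1) / N)))
    {σ : Type} [Fintype σ] [DecidableEq σ]
    {ι : Type} [Fintype ι] (l : ι → σ → L) (f : ι → L[X]) (e : ι → ℕ) (he : ∀ i, e i < N)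
    {j : ℕ} (hj : j.Coprime N) (l0 : σ → L) (G : L[X]) (ψ : AddChar L R) {ν : R}
    (hψ : ∀ y, ψ y = av L R c ν y) :
    mSumA L R N c l f e l0 G z (ω ^ j) ν
      = ∑ v : σ → L, ∑ t : L, ψ (frm l0 G v t) *
        ∏ i : {i // e i ≠ 0}, (T ^ ((j * e i.1) % N)) (frm (l i.1) (f i.1) v t) := by
  classical
  have hj1 : 1 ≤ j := by
    rcases Nat.eq_zero_or_pos j with h | h
    · rw [h, Nat.coprime_zero_left] at hj
      omega
    · exact h
  unfold mSumA
  refine sum_congr rfl fun x _ => sum_congr rfl fun t _ => ?_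
  rw [← hTz j _ hj1, map_prod, ← prod_pow, ← hψ]
  rw [prod_congr rfl fun i _ => factor T hT hj (he i) (frm (l i) (f i) x t)]
  rw [prod_ite, prod_const_one, one_mul]
  rw [← prod_subtype (univ.filter fun i => ¬ e i = 0) (p := fun i => e i ≠ 0)
    (by intro i; simp) (fun i => (T ^ ((j * e i) % N)) (frm (l i) (f i) x t))]
  rw [mul_comm]

section

variable {c : ℕ} [Fact c.Prime]

theorem m_estA (hAV : AV) (hGN : GN) (hONE : ONE)
    {k : Type} [Field k] [CharP k c] {R : Subring (PadicAlgCl c)} {res : R →+* k}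
    (hR : IsRes c R res) {N : ℕ} (hN : 2 ≤ N) {F n : ℕ} (hF0 : 0 < F) (hn : 0 < n)
    (hNf : N ∣ c ^ F - 1)
    (L : Type) [Field L] [Fintype L] [CharP L c] (hcard : Fintype.card L = c ^ (F * n))
    (eL : L →+* k) {z : L} (hz : IsPrimitiveRoot z N) {Ω : PadicAlgCl c}
    (hΩ : IsPrimitiveRoot Ω N) (hΩz : ∃ h : Ω ∈ R, res ⟨Ω, h⟩ = eL z)
    {D : ℕ} (hD : 1 ≤ D) {σ : Type} [Fintype σ] [DecidableEq σ] {ι : Type} [Fintype ι]
    (l : ι → σ → L) (f : ι → L[X])
    (hf : ∀ i, (f i).natDegree ≤ D) (e : ι → ℕ) (he : ∀ i, e i < N)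
    {j : ℕ} (hj : j.Coprime N) (l0 : σ → L) (G : L[X]) (hG : G.natDegree ≤ D) {ν : PadicAlgCl c}
    (hν : IsPrimitiveRoot ν c)
    (hjd : D * ∑ i, ∑ s ∈ range F, (j * e i * c ^ s) % N < F * N) :
    ‖mSumA L (PadicAlgCl c) N c l f e l0 G z (Ω ^ j) ν‖ ^ (D * N)
      ≤ ‖((Fintype.card L : ℕ) : PadicAlgCl c)‖ ^ (Fintype.card σ * (D * N))
        * ‖((c : ℕ) : PadicAlgCl c)‖ ^ n := by
  classical
  have hDG : DG := Pool.Agent.W883.HB.DG.main Pool.Agent.W135.HB.SA.main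
  have hDI : DI := Pool.Agent.W563.HB.DI.main
  have hAY : AY := Pool.Agent.W271.HB.AY.main
  have hGO : GO := Pool.Agent.W540.HB.GO.main
  have hTT : TT := Pool.Agent.W400.HB.TT.main
  have hc1 : 1 ≤ c := (Fact.out : c.Prime).one_lt.le
  have hNk : (N : k) ≠ 0 := natCast_ne_zero_of_dvd hNf hF0
  obtain ⟨w, hw⟩ := hTT c k R res hR L eL
  obtain ⟨-, hprop⟩ := hAY c L
  obtain ⟨ψ, hψ, hψν⟩ := hAV c L ν hν
  obtain ⟨hψ1, hψ2⟩ := hprop ψ hψ
  have hgo := hGO c k R res hR L eL w hw ψ hψ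
  have hd := dvd_card_of_root hz (by omega)
  have hTz := fun (b : ℕ) (y : L) (hb : 1 ≤ b) =>
    kvT hw (by omega) hNk hz hΩ.pow_eq_one hΩz b y hb
  set T := w ^ ((Fintype.card L - 1) / N) with hT
  have hTN : T ^ N = 1 := T_pow_card w hd
  have hne : ∀ b, 1 ≤ b → b < N → T ^ b ≠ 1 := by
    intro b hb hbN h
    obtain ⟨y, hy0, hy⟩ := exists_pow_eq' L (by omega) hd hz.pow_eq_one
    have h1 := hTz 1 y le_rfl
    rw [pow_one, pow_one, hy] at h1
    have h2 : kv N z Ω z = Ω := by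
      unfold kv
      rw [sum_eq_single 1]
      · rw [pow_one, if_pos rfl, pow_one]
      · intro i hi hi1
        rw [mem_range] at hi
        rw [if_neg]
        intro h
        apply hi1
        apply hz.pow_inj hi (by omega)
        rw [pow_one]
        exact h.symm
      · intro h
        exact absurd (mem_range.mpr (by omega)) h
    rw [h2] at h1
    have h3 : (T ^ b) y = (1 : MulChar L (PadicAlgCl c)) y := by rw [h]
    rw [MulChar.pow_apply' T (by omega), h1, MulChar.one_apply (isUnit_iff_ne_zero.mpr hy0)] at h3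
    exact hΩ.pow_ne_one_of_pos_of_lt (by omega) hbN h3
  rw [mSumA_eq hN L T hTN hTz l f e he hj l0 G ψ hψν]
  have hest := two_estMA hGN hONE hDG hDI w ψ hψ1 hψ2 hgo hcard hd (Nat.mul_pos hF0 hn) hne hD
    {i // e i ≠ 0} (fun i => l i.1) (fun i => f i.1) (fun i => hf i.1)
    (fun i => (j * e i.1) % N) (by
      intro i
      refine ⟨?_, Nat.mod_lt _ (by omega)⟩
      rw [Nat.one_le_iff_ne_zero]
      intro h
      have h1 : N ∣ j * e i.1 := Nat.dvd_of_mod_eq_zero h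
      have h2 : N ∣ e i.1 := (Nat.Coprime.symm hj).dvd_of_dvd_mul_left h1
      exact absurd (Nat.le_of_dvd (Nat.pos_of_ne_zero i.2) h2) (by have := he i.1; omega))
    l0 G hG
  -- the exponent
  have hper : ∀ b : ℕ, ∑ s ∈ range (F * n), ((j * b) % N * c ^ s) % N
      = n * ∑ s ∈ range F, (j * b * c ^ s) % N := by
    intro b
    rw [sum_period (by omega) hNf hc1]
    congr 1
    refine sum_congr rfl fun s _ => ?_
    exact (Nat.mod_modEq (j * b) N).mul_right (c ^ s)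
  have h1 : ∑ i : {i // e i ≠ 0}, ∑ s ∈ range (F * n), ((j * e i.1) % N * c ^ s) % N
      = n * ∑ i, ∑ s ∈ range F, (j * e i * c ^ s) % N := by
    rw [mul_sum, sum_congr rfl fun i _ => hper (e i.1)]
    rw [← sum_subtype (univ.filter fun i => e i ≠ 0) (p := fun i => e i ≠ 0)
      (by intro i; simp) (fun i => n * ∑ s ∈ range F, (j * e i * c ^ s) % N)]
    rw [sum_filter]
    refine sum_congr rfl fun i _ => ?_
    by_cases h : e i = 0
    · rw [h, if_neg (by simp)]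
      simp
    · rw [if_pos h]
  rw [h1] at hest
  set A := ∑ i, ∑ s ∈ range F, (j * e i * c ^ s) % N with hA
  set ρ := ‖((c : ℕ) : PadicAlgCl c)‖ with hρ
  have hρ0 : 0 < ρ := by
    rw [hρ, norm_pos_iff]
    exact_mod_cast (Fact.out : c.Prime).ne_zero
  have hρ1 : ρ ≤ 1 := norm_natCast_le c
  have hcardn : ‖((Fintype.card L : ℕ) : PadicAlgCl c)‖ = ρ ^ (F * n) := by
    rw [hcard]
    push_cast
    rw [norm_pow]
  rw [hcardn, ← pow_mul ρ, ← pow_add ρ]
  set σn := Fintype.card σ with hσn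
  have h3 : (D * (n * A)) + (F * n * (σn * (D * N)) + n) ≤ F * n * (σn * D + 1) * N := by
    have h4 : D * A + 1 ≤ F * N := hjd
    calc (D * (n * A)) + (F * n * (σn * (D * N)) + n)
        = n * (D * A + 1) + F * n * (σn * (D * N)) := by ring
      _ ≤ n * (F * N) + F * n * (σn * (D * N)) := Nat.add_le_add_right (Nat.mul_le_mul_left n h4) _
      _ = F * n * (σn * D + 1) * N := by ring
  have h5 : ρ ^ (F * n * (σn * D + 1) * N) ≤ ρ ^ (F * n * (σn * (D * N)) + n)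
      * ρ ^ (D * (n * A)) := by
    rw [← pow_add]
    apply pow_le_pow_of_le_one hρ0.le hρ1
    rw [add_comm]
    exact h3
  exact le_of_mul_le_mul_right (hest.trans h5) (pow_pos hρ0 _)

/-- **No exponent of the sums is a root of unity times `q ^ n`**, `n` the number of the linear variables. -/
theorem m_nonvanishA (hAV : AV) (hGN : GN) (hONE : ONE) {N : ℕ} (hN : 2 ≤ N)
    (κ : Type) [Field κ] [Fintype κ] [CharP κ c] {F : ℕ} (hF : Fintype.card κ = c ^ F)
    {z : κ} (hz : IsPrimitiveRoot z N) {E : Type} [Field E] [CharZero E] [IsAlgClosed E]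
    {μ : E} (hμ : IsPrimitiveRoot μ N) {ν : E} (hν : IsPrimitiveRoot ν c)
    {D : ℕ} (hD : 1 ≤ D) {σ : Type} [Fintype σ] [DecidableEq σ] {ι : Type} [Fintype ι]
    (l : ι → σ → κ) (f : ι → κ[X])
    (hf : ∀ i, (f i).natDegree ≤ D) (e : ι → ℕ) (he : ∀ i, e i < N)
    {j : ℕ} (hj : j.Coprime N) (l0 : σ → κ) (G : κ[X]) (hG : G.natDegree ≤ D)
    (hjd : D * ∑ i, ∑ s ∈ range F, (j * e i * c ^ s) % N < F * N) (A : E →₀ ℤ)
    (hA : ∀ (L : Type) [Field L] [Fintype L] [Algebra κ L],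
      A.sum (fun x m => (m : E) * x ^ Module.finrank κ L)
        = mSumA L E N c (fun i j => algebraMap κ L (l i j)) (fun i => (f i).map (algebraMap κ L)) e
          (fun j => algebraMap κ L (l0 j)) (G.map (algebraMap κ L)) (algebraMap κ L z) μ ν)
    (x : E) (M : ℕ) (hM : 0 < M) (hxM : x ^ M = ((Fintype.card κ : E) ^ Fintype.card σ) ^ M) :
    A x = 0 := by
  classical
  by_contra hAx
  have hF0 : 0 < F := by
    rcases Nat.eq_zero_or_pos F with h | h
    · rw [h, pow_zero] at hF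
      have := Fintype.one_lt_card (α := κ)
      omega
    · exact h
  have hNf : N ∣ c ^ F - 1 := by
    rw [← hF]
    exact dvd_card_of_root hz (by omega)
  have hq : (Fintype.card κ : E) ≠ 0 := by exact_mod_cast Fintype.card_ne_zero
  have hx0 : x ≠ 0 := by
    rintro rfl
    rw [zero_pow hM.ne'] at hxM
    exact pow_ne_zero M (pow_ne_zero _ hq) hxM.symm
  refine coreAZ hN κ hF (Fintype.card σ) (D * N) (Nat.mul_pos (by omega) (by omega)) hj hz hμ hν
    (fun L _ _ _ R _ ω ω' => mSumA L R N c (fun i j => algebraMap κ L (l i j))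
      (fun i => (f i).map (algebraMap κ L)) e (fun j => algebraMap κ L (l0 j))
      (G.map (algebraMap κ L)) (algebraMap κ L z) ω ω')
    (fun L _ _ _ R R' _ _ g y y' => map_mSumA g N c _ _ e _ _ _ y y') ?_ (A.support.filter (· ≠ 0))
    (fun y => A y) ?_ ?_ x ?_ M hM hxM
  · intro k _ _ R res hR n hn L _ _ _ _ hcard eL Ω hΩ hΩz ν' hν'
    exact m_estA hAV hGN hONE hR hN hF0 hn hNf L hcard eL
      (hz.map_of_injective (algebraMap κ L).injective) hΩ hΩz hD _ _
      (fun i => (natDegree_map_le).trans (hf i)) e he hj _ _ ((natDegree_map_le).trans hG) hν' hjd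
  · intro y hy
    rw [Finset.mem_filter, Finsupp.mem_support_iff] at hy
    exact ⟨hy.2, hy.1⟩
  · intro L _ _ _
    have hL : 1 ≤ Module.finrank κ L := by
      have : Module.Finite κ L := .of_finite
      exact Module.finrank_pos
    rw [← hA L, Finsupp.sum, Finset.sum_filter]
    refine sum_congr rfl fun y _ => ?_
    by_cases hy : y = 0
    · rw [if_neg (by simpa using hy), hy, zero_pow (by omega), mul_zero]
    · rw [if_pos hy]
  · rw [Finset.mem_filter, Finsupp.mem_support_iff]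
    exact ⟨hAx, hx0⟩

end

end Pool.Agent.J6H9.AS
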