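import Pool.Agent.J6H9.AC.Pts2
import Pool.Agent.J6H9.AS.Est
import Pool.Agent.W410.HG.PS

/-!
# The number of the points of the coverings of affine space with Artin-Schreier equations

Adapted from `Pool.Agent.J6H9.AC.Pts2` and from the starting file `Pool.Agent.W410.HG.PS` (base of
dimension one).
-/

set_option autoImplicit false

namespace Pool.Agent.J6H9.AS

open Finset Polynomial Pool.Agent.W528.HA Pool.Agent.W528.HC Pool.Agent.W125.HC.PC Pool.Agent.W528.HG
  Pool.Agent.J6H9.AC Pool.Agent.W410.HG.PS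

/-- The sum over `(x, t)` of the value at
`∏ (x - f_i(t)) ^ (R (j a_i mod N)) * ∏ h_l(t) ^ (R (j a'_l mod N)) * ∏ h_l(t) ^ (N (s b_l mod R))` of the
character of order `N R` of `L` belonging to `z ↦ μ`, times `ν ^ Tr(∑ λ_o g_o(t))`. -/
noncomputable def wSum (L : Type) [Field L] [Fintype L] (A : Type) [CommRing A] (N R c : ℕ)
    {T : Type} [Fintype T] {m n w : ℕ} (f : Fin m → T → L) (a : Fin m → ℕ) (h : Fin n → T → L)
    (a' b : Fin n → ℕ) (g : Fin w → T → L) (z : L) (μ ν : A) (j s : ℕ) (lam : Fin w → Fin c) : A :=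
  ∑ x : L, ∑ t : T, kv (N * R) z μ
    (((∏ i, (x - f i t) ^ (R * (j * a i % N))) * ((∏ l, (h l t) ^ (R * (j * a' l % N))) *
      ∏ l, (h l t) ^ (N * (s * b l % R)))) ^ ((Fintype.card L - 1) / (N * R))) *
    av L A c ν (∑ o, ((lam o : ℕ) : L) * g o t)

/-- The number of the points `(t, u, w)` with `u ^ R = ∏ h_l(t) ^ b_l` and `w_o ^ c - w_o = g_o(t)` for
all `o`. -/
noncomputable def bPtsA (L : Type) [Field L] (R c : ℕ) {T : Type} {n w : ℕ} (h : Fin n → T → L)
    (b : Fin n → ℕ) (g : Fin w → T → L) : ℕ :=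
  Set.ncard {v : T × L × (Fin w → L) | v.2.1 ^ R = ∏ l, (h l v.1) ^ b l ∧
    ∀ o, v.2.2 o ^ c - v.2.2 o = g o v.1}

/-- The number of the points `((x, t), (u, y), w)` with `u ^ R = ∏ h_l(t) ^ b_l`,
`y ^ N = ∏ (x - f_i(t)) ^ a_i ∏ h_l(t) ^ a'_l` and `w_o ^ c - w_o = g_o(t)` for all `o`. -/
noncomputable def tPtsA (L : Type) [Field L] (N R c : ℕ) {T : Type} {m n w : ℕ} (f : Fin m → T → L)
    (a : Fin m → ℕ) (h : Fin n → T → L) (a' b : Fin n → ℕ) (g : Fin w → T → L) : ℕ :=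
  Set.ncard {v : (L × T) × (L × L) × (Fin w → L) | v.2.1.1 ^ R = ∏ l, (h l v.1.2) ^ b l ∧
    v.2.1.2 ^ N = (∏ i, (v.1.1 - f i v.1.2) ^ a i) * ∏ l, (h l v.1.2) ^ a' l ∧
    ∀ o, v.2.2 o ^ c - v.2.2 o = g o v.1.2}

section

variable {L : Type} [Field L] [Fintype L] {T : Type} [Fintype T]

theorem bPtsA_eq [DecidableEq L] {R c n w : ℕ} (γ : Fin n → T → L) (b : Fin n → ℕ) (g : Fin w → T → L)
    {E : Type} [Field E] :
    ((bPtsA L R c γ b g : ℕ) : E) = ∑ t : T,
      ((Set.ncard {u : L | u ^ R = ∏ l, (γ l t) ^ b l} : ℕ) : E) *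
        ∏ o, ((univ.filter (fun w : L => w ^ c - w = g o t)).card : E) := by
  classical
  unfold bPtsA
  have h : {v : T × L × (Fin w → L) | v.2.1 ^ R = ∏ l, (γ l v.1) ^ b l ∧
      ∀ o, v.2.2 o ^ c - v.2.2 o = g o v.1} =
      ((univ.filter (fun v : T × L × (Fin w → L) => v.2.1 ^ R = ∏ l, (γ l v.1) ^ b l ∧
        ∀ o, v.2.2 o ^ c - v.2.2 o = g o v.1) : Finset (T × L × (Fin w → L))) :
        Set (T × L × (Fin w → L))) := by
    ext y; simp
  rw [h, Set.ncard_coe_finset, card_filter, Fintype.sum_prod_type]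
  push_cast
  refine sum_congr rfl fun t _ => ?_
  rw [ncard_eq, Fintype.sum_prod_type, sum_mul]
  refine sum_congr rfl fun u _ => ?_
  rw [← card_as L E c w (fun o => g o t), mul_sum]
  refine sum_congr rfl fun y _ => ?_
  by_cases h1 : u ^ R = ∏ l, (γ l t) ^ b l
  · by_cases h2 : ∀ o, y o ^ c - y o = g o t
    · rw [if_pos ⟨h1, h2⟩, if_pos h1, if_pos h2, mul_one]
    · rw [if_neg (fun hh => h2 hh.2), if_neg h2, mul_zero]
  · rw [if_neg (fun hh => h1 hh.1), if_neg h1, zero_mul]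

theorem tPtsA_eq [DecidableEq L] {N R c m n w : ℕ} (α : Fin m → T → L) (a : Fin m → ℕ)
    (γ : Fin n → T → L) (a' b : Fin n → ℕ) (g : Fin w → T → L) {E : Type} [Field E] :
    ((tPtsA L N R c α a γ a' b g : ℕ) : E) = ∑ x : L, ∑ t : T,
      ((Set.ncard {y : L | y ^ N = (∏ i, (x - α i t) ^ a i) * ∏ l, (γ l t) ^ a' l} : ℕ) : E) *
      (((Set.ncard {u : L | u ^ R = ∏ l, (γ l t) ^ b l} : ℕ) : E) *
        ∏ o, ((univ.filter (fun w : L => w ^ c - w = g o t)).card : E)) := by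
  classical
  unfold tPtsA
  have h : {v : (L × T) × (L × L) × (Fin w → L) | v.2.1.1 ^ R = ∏ l, (γ l v.1.2) ^ b l ∧
      v.2.1.2 ^ N = (∏ i, (v.1.1 - α i v.1.2) ^ a i) * ∏ l, (γ l v.1.2) ^ a' l ∧
      ∀ o, v.2.2 o ^ c - v.2.2 o = g o v.1.2} =
      ((univ.filter (fun v : (L × T) × (L × L) × (Fin w → L) =>
        v.2.1.1 ^ R = ∏ l, (γ l v.1.2) ^ b l ∧
        v.2.1.2 ^ N = (∏ i, (v.1.1 - α i v.1.2) ^ a i) * ∏ l, (γ l v.1.2) ^ a' l ∧
        ∀ o, v.2.2 o ^ c - v.2.2 o = g o v.1.2) : Finset ((L × T) × (L × L) × (Fin w → L))) :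
        Set ((L × T) × (L × L) × (Fin w → L))) := by
    ext y; simp
  rw [h, Set.ncard_coe_finset, card_filter, Fintype.sum_prod_type, Fintype.sum_prod_type]
  push_cast
  refine sum_congr rfl fun x _ => sum_congr rfl fun t _ => ?_
  rw [Fintype.sum_prod_type, Fintype.sum_prod_type, ncard_eq, ncard_eq, ← mul_assoc, sum_mul_sum,
    sum_comm, sum_mul]
  refine sum_congr rfl fun y _ => ?_
  rw [sum_mul]
  refine sum_congr rfl fun u _ => ?_
  rw [← card_as L E c w (fun o => g o t), mul_sum]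
  refine sum_congr rfl fun k _ => ?_
  by_cases h1 : u ^ R = ∏ l, (γ l t) ^ b l
  · by_cases h2 : y ^ N = (∏ i, (x - α i t) ^ a i) * ∏ l, (γ l t) ^ a' l
    · by_cases h3 : ∀ o, k o ^ c - k o = g o t
      · rw [if_pos ⟨h1, h2, h3⟩, if_pos h1, if_pos h2, if_pos h3, mul_one, mul_one]
      · rw [if_neg (fun hh => h3 hh.2.2), if_neg h3, mul_zero]
    · rw [if_neg (fun hh => h2 hh.2.1), if_neg h2, zero_mul, zero_mul]
  · rw [if_neg (fun hh => h1 hh.1), if_neg h1, mul_zero, zero_mul]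

end

theorem pts_mainA (hPR : PR) (hMU : MU) (L : Type) [Field L] [Fintype L] (N R c : ℕ) [Fact c.Prime]
    [CharP L c] (z : L)
    (hN : 2 ≤ N) (hR : 0 < R) (hz : IsPrimitiveRoot z (N * R)) (E : Type) [Field E]
    [CharZero E] (μ ν : E) (hμ : IsPrimitiveRoot μ (N * R)) (hν : IsPrimitiveRoot ν c)
    (m n w : ℕ) (T : Type) [Fintype T]
    (α : Fin m → T → L) (a : Fin m → ℕ) (γ : Fin n → T → L) (a' b : Fin n → ℕ) (g : Fin w → T → L)
    (ha : ∀ i, (a i).Coprime N) (ha' : ∀ l, a' l = 0 ∨ (a' l).Coprime N)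
    (hb : ∀ l, b l = 0 ∨ (b l).Coprime R) :
    ∑ j ∈ Ico 1 N, ∑ s ∈ range R, ∑ lam : Fin w → Fin c, wSum L E N R c α a γ a' b g z μ ν j s lam
      = (tPtsA L N R c α a γ a' b g : E) - (Fintype.card L : E) * (bPtsA L R c γ b g : E) := by
  classical
  have hN1 : 0 < N := by omega
  have hNR : 0 < N * R := Nat.mul_pos hN1 hR
  have hN2 : 2 ≤ N * R := by
    calc 2 ≤ N := hN
      _ = N * 1 := (mul_one N).symm
      _ ≤ N * R := Nat.mul_le_mul_left N hR
  have hmu := hMU L (N * R) z hN2 hz E μ hμ.pow_eq_one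
  have hz' : IsPrimitiveRoot z (R * N) := by
    rw [mul_comm]
    exact hz
  -- the functions
  obtain ⟨F, hF⟩ : ∃ F : L → T → L, F = fun x t => (∏ i, (x - α i t) ^ a i) * ∏ l, (γ l t) ^ a' l :=
    ⟨_, rfl⟩
  obtain ⟨G, hG⟩ : ∃ G : T → L, G = fun t => ∏ l, (γ l t) ^ b l := ⟨_, rfl⟩
  obtain ⟨W, hW⟩ : ∃ W : T → E, W = fun t =>
      ∏ o, ((univ.filter (fun w : L => w ^ c - w = g o t)).card : E) := ⟨_, rfl⟩
  have h0 : ∀ j ∈ Ico 1 N, ∀ (x : L) (t : T), ((∏ i, (x - α i t) ^ (R * (j * a i % N))) *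
      ∏ l, (γ l t) ^ (R * (j * a' l % N))) ^ ((Fintype.card L - 1) / (N * R)) =
      (F x t ^ (R * j)) ^ ((Fintype.card L - 1) / (N * R)) := by
    intro j hj x t
    rw [mem_Ico] at hj
    rw [hF]
    simp only
    rw [mul_pow, mul_pow, mul_pow, ← prod_pow, ← prod_pow, ← prod_pow, ← prod_pow, ← prod_pow,
      ← prod_pow]
    congr 1
    · exact prod_congr rfl fun i _ => red_exp hN1 hR hz (Or.inr (ha i)) hj.2 _
    · exact prod_congr rfl fun l _ => red_exp hN1 hR hz (ha' l) hj.2 _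
  have h0' : ∀ s ∈ range R, ∀ t : T, (∏ l, (γ l t) ^ (N * (s * b l % R))) ^
      ((Fintype.card L - 1) / (N * R)) = (G t ^ (N * s)) ^
      ((Fintype.card L - 1) / (N * R)) := by
    intro s hs t
    rw [mem_range] at hs
    rw [hG]
    simp only
    rw [← prod_pow, ← prod_pow, ← prod_pow]
    refine prod_congr rfl fun l _ => ?_
    have h1 := red_exp hR hN1 hz' (hb l) hs (γ l t)
    rw [mul_comm R N] at h1
    exact h1
  have h1 : ∀ j ∈ Ico 1 N, ∀ s ∈ range R, ∀ (x : L) (t : T), kv (N * R) z μ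
      (((∏ i, (x - α i t) ^ (R * (j * a i % N))) * ((∏ l, (γ l t) ^ (R * (j * a' l % N))) *
        ∏ l, (γ l t) ^ (N * (s * b l % R)))) ^ ((Fintype.card L - 1) / (N * R))) =
      kv (N * R) z μ ((F x t ^ (R * j)) ^ ((Fintype.card L - 1) / (N * R))) *
        kv (N * R) z μ ((G t ^ (N * s)) ^ ((Fintype.card L - 1) / (N * R))) := by
    intro j hj s hs x t
    rw [← mul_assoc, hmu, h0 j hj x t, h0' s hs t]
  have h2 : ∀ v : L, ∑ j ∈ Ico 1 N,
      kv (N * R) z μ ((v ^ (R * j)) ^ ((Fintype.card L - 1) / (N * R))) =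
      ((Set.ncard {y : L | y ^ N = v} : ℕ) : E) - 1 := by
    intro v
    have := hPR L (N * R) N R z rfl hz hN1 hR E μ hμ v
    rw [this]; ring
  have h3 : ∀ v : L, ∑ s ∈ range R,
      kv (N * R) z μ ((v ^ (N * s)) ^ ((Fintype.card L - 1) / (N * R))) =
      ((Set.ncard {y : L | y ^ R = v} : ℕ) : E) := by
    intro v
    have := hPR L (N * R) R N z (mul_comm N R) hz hR hN1 E μ hμ v
    rw [this, range_eq_Ico, sum_eq_sum_Ico_succ_bot hR]
    congr 1
    rw [mul_zero, pow_zero, one_pow, kv_one hNR hz]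
  obtain ⟨A, hA⟩ : ∃ A : L → T → ℕ → E, A = fun x t j =>
      kv (N * R) z μ ((F x t ^ (R * j)) ^ ((Fintype.card L - 1) / (N * R))) := ⟨_, rfl⟩
  obtain ⟨B, hB⟩ : ∃ B : T → ℕ → E, B = fun t s =>
      kv (N * R) z μ ((G t ^ (N * s)) ^ ((Fintype.card L - 1) / (N * R))) := ⟨_, rfl⟩
  have h2' : ∀ (x : L) (t : T), (∑ j ∈ Ico 1 N, A x t j) =
      ((Set.ncard {y : L | y ^ N = F x t} : ℕ) : E) - 1 := by
    intro x t
    rw [hA]
    exact h2 (F x t)
  have h3' : ∀ t : T, (∑ s ∈ range R, B t s * W t) =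
      ((Set.ncard {y : L | y ^ R = G t} : ℕ) : E) * W t := by
    intro t
    rw [← sum_mul, hB]
    congr 1
    exact h3 (G t)
  have hlam : ∀ t : T, ∑ lam : Fin w → Fin c, av L E c ν (∑ o, ((lam o : ℕ) : L) * g o t) = W t := by
    intro t
    rw [hW]
    exact as_sum L E c ν hν w (fun o => g o t)
  have e1 : (∑ j ∈ Ico 1 N, ∑ s ∈ range R, ∑ lam : Fin w → Fin c,
      wSum L E N R c α a γ a' b g z μ ν j s lam) =
      ∑ j ∈ Ico 1 N, ∑ s ∈ range R, ∑ x : L, ∑ t : T, A x t j * (B t s * W t) := by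
    refine sum_congr rfl fun j hj => sum_congr rfl fun s hs => ?_
    unfold wSum
    rw [sum_comm]
    refine sum_congr rfl fun x _ => ?_
    rw [sum_comm]
    refine sum_congr rfl fun t _ => ?_
    rw [← mul_sum, hlam t, h1 j hj s hs x t, hA, hB, mul_assoc]
  have e3 : (∑ x : L, ∑ t : T, (∑ j ∈ Ico 1 N, A x t j) * (∑ s ∈ range R, B t s * W t)) =
      ∑ x : L, ∑ t : T, (((Set.ncard {y : L | y ^ N = F x t} : ℕ) : E) *
        (((Set.ncard {u : L | u ^ R = G t} : ℕ) : E) * W t) -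
          ((Set.ncard {u : L | u ^ R = G t} : ℕ) : E) * W t) :=
    sum_congr rfl fun x _ => sum_congr rfl fun t _ => by rw [h2', h3']; ring
  refine e1.trans ((swap4' (Ico 1 N) (range R) A (fun t s => B t s * W t)).trans (e3.trans ?_))
  rw [tPtsA_eq, bPtsA_eq, hF, hG, hW]
  simp only [sum_sub_distrib, sum_const, card_univ, nsmul_eq_mul]

theorem wSum_eq {L : Type} [Field L] [Fintype L] {A : Type} [CommRing A] (N R c : ℕ) {d m n w : ℕ}
    (f : Fin m → L[X]) (γ : Fin m → Fin d → L) (a : Fin m → ℕ) (h : Fin n → L[X])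
    (η : Fin n → Fin d → L) (a' b : Fin n → ℕ) (g : Fin w → L[X]) (θ : Fin w → Fin d → L) (z : L)
    (μ ν : A) (j s : ℕ) (lam : Fin w → Fin c) :
    wSum L A N R c (fun i => AC.val (f i) (γ i)) a (fun l => AC.val (h l) (η l)) a' b
        (fun o => AC.val (g o) (θ o)) z μ ν j s lam
      = mSumA L A (σ := Option (Fin d)) (N * R) c
        (Sum.elim (fun i o => o.elim 1 fun j => -(γ i j)) (Sum.elim (fun l o => o.elim 0 (η l))
          (fun l o => o.elim 0 (η l))))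
        (Sum.elim (fun i => -(f i)) (Sum.elim h h))
        (Sum.elim (fun i => R * (j * a i % N)) (Sum.elim (fun l => R * (j * a' l % N))
          (fun l => N * (s * b l % R))))
        (fun o => o.elim 0 fun k => ∑ i, ((lam i : ℕ) : L) * θ i k)
        (∑ i, C ((lam i : ℕ) : L) * g i) z μ ν := by
  classical
  unfold wSum mSumA
  rw [← Fintype.sum_prod_type' (f := fun (x : L) (t : Fin (d + 1) → L) => kv (N * R) z μ
    (((∏ i, (x - val (f i) (γ i) t) ^ (R * (j * a i % N))) *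
      ((∏ l, (val (h l) (η l) t) ^ (R * (j * a' l % N))) *
      ∏ l, (val (h l) (η l) t) ^ (N * (s * b l % R)))) ^ ((Fintype.card L - 1) / (N * R))) *
      av L A c ν (∑ o, ((lam o : ℕ) : L) * val (g o) (θ o) t))]
  rw [← Fintype.sum_prod_type' (f := fun (v : Option (Fin d) → L) (t : L) => kv (N * R) z μ
    ((∏ i, (frm ((Sum.elim (fun i o => o.elim 1 fun j => -(γ i j)) (Sum.elim (fun l o =>
      o.elim 0 (η l)) (fun l o => o.elim 0 (η l))) :
      Fin m ⊕ (Fin n ⊕ Fin n) → Option (Fin d) → L) i) ((Sum.elim (fun i => -(f i)) (Sum.elim h h) :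
        Fin m ⊕ (Fin n ⊕ Fin n) → L[X]) i) v t) ^ (Sum.elim (fun i => R * (j * a i % N))
          (Sum.elim (fun l => R * (j * a' l % N)) (fun l => N * (s * b l % R))) :
            Fin m ⊕ (Fin n ⊕ Fin n) → ℕ) i) ^ ((Fintype.card L - 1) / (N * R))) *
      av L A c ν (frm (fun o : Option (Fin d) => o.elim 0 fun k => ∑ i, ((lam i : ℕ) : L) * θ i k)
        (∑ i, C ((lam i : ℕ) : L) * g i) v t))]
  refine (Fintype.sum_equiv (splitEquiv L d) _ _ ?_).symm
  rintro ⟨v, t⟩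
  simp only [splitEquiv, Equiv.coe_fn_mk]
  congr 1
  · congr 2
    rw [Fintype.prod_sum_type, Fintype.prod_sum_type]
    have h1 : ∀ l : Fin n, frm (fun o : Option (Fin d) => o.elim 0 (η l)) (h l) v t =
        val (h l) (η l) (Fin.cons t fun j => v (some j)) := by
      intro l
      rw [frm, Pool.Agent.J6H9.AC.val, Fintype.sum_option]
      simp only [Option.elim_none, Option.elim_some, zero_mul, zero_add, Fin.cons_zero, Fin.cons_succ]
      ring
    congr 1
    · refine prod_congr rfl fun i _ => ?_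
      simp only [Sum.elim_inl]
      congr 1
      rw [frm, Pool.Agent.J6H9.AC.val, Fintype.sum_option]
      simp only [Option.elim_none, Option.elim_some, one_mul, eval_neg, Fin.cons_zero, Fin.cons_succ,
        neg_mul, sum_neg_distrib]
      ring
    · congr 1
      · refine prod_congr rfl fun i _ => ?_
        simp only [Sum.elim_inl, Sum.elim_inr]
        rw [h1]
      · refine prod_congr rfl fun i _ => ?_
        simp only [Sum.elim_inr]
        rw [h1]
  · congr 1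
    rw [frm, Fintype.sum_option, eval_finsetSum]
    simp only [Option.elim_none, Option.elim_some, zero_mul, zero_add, Pool.Agent.J6H9.AC.val, Fin.cons_zero,
      Fin.cons_succ, eval_mul, eval_C, mul_add, sum_add_distrib]
    rw [add_comm]
    congr 1
    simp only [sum_mul, mul_sum]
    rw [sum_comm]
    exact sum_congr rfl fun i _ => sum_congr rfl fun k _ => by ring

end Pool.Agent.J6H9.AS
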