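import Pool.Agent.J6H9.AS.Fin

/-!
# Tate's conjecture for superelliptic Jacobians over the function fields of wild and tame abelian coverings
of affine spaces of every dimension: all positions of the branch hypersurfaces

Let `N ≥ 2` and `R ≥ 1` be coprime, `P` and `Q` lower bounds for their prime factors, `k` a finite field of
characteristic `c = 1` modulo `N R` which contains the roots of unity of order `N R`, `q = |k|`, and
`d ≥ 0`.  Let `f_i`, `i < m`, `h_l`, `l < n`, and `g_o`, `o < w`, be ANY polynomials in `t_0, ..., t_d` over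
`k` of the form

  `p(t_0) + γ_1 t_1 + ... + γ_d t_d`, `deg p ≤ D`

(for `D = 1`: any affine linear functions), and let `a_i > 0`, `a'_l, b_l ≥ 0` with
`D ((∑ a_i + ∑ a'_l) / P + ∑ b_l / Q) < 1`.  Let

  `K = k(t_0, ..., t_d)(u, w_1, w_2, ...)`, `u ^ R = ∏ h_l(t) ^ b_l`, `w_o ^ c - w_o = g_o(t)`

(an abelian covering of the affine space whose group is the product of a group of order dividing `R` and any
number `w` of cyclic groups of order `c`; the `w_o` are wildly ramified at infinity), a finitely generated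
field of transcendence degree `d + 1` over `𝔽_c`, so `dim Y = d + 1` for the models `Y` of `K`.  Let `J`
be the Jacobian of the curve

  `X : y ^ N = ∏ h_l(t) ^ a'_l * ∏ (x - f_i(t)) ^ a_i`

over `K`.  No position of the hypersurfaces `x = f_i(t)`, `h_l(t) = 0` is excluded, and there is no
condition on `w`: the number of the Artin-Schreier equations is arbitrary.

The fibre of (the smooth model of) `X` over a point `(t, u, w)` with `h_l(t) ≠ 0` and with coordinates in
a finite field with `q'` elements has one point at infinity and one point over each branch point, since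
`∑ a_i < P`; the trace of the Frobenius on its `H¹` is `q'` minus the number of the points `(x, y)`
on the given affine equation.  Hence the logarithm of the Euler product `Φ_1` of `X` over the covering
of the affine space is `∑ τ_e T ^ e / e`, `T = q ^ (-s)`, where `τ_e` is `q'` times the number of the points
`(t, u, w)` minus the number of the points `(x, t, u, y, w)` over the extension of `k` of degree `e`, with
`q' = q ^ e` elements.  (The closed points over which the fibre degenerates or an `h_l` is zero form a set of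
dimension `d`; they contribute factors without zeros and poles for `Re s > d + 1/2`.)

`Φ_1` is the product of the L-functions of the characters `(j, s, λ)`, `0 < j < N`, `0 ≤ s < R`,
`λ ∈ {0, ..., c - 1} ^ w`, which are rational functions (Dwork, Grothendieck).  The `(j, s, λ)`-factor is
written as `∏_α (1 - α T) ^ Λ_{j,s,λ}(α)`, where `Λ_{j,s,λ}` is a function on `E` with integral values and
finite support; this means that `∑_α Λ_{j,s,λ}(α) α ^ [L : k] = charSum_L(j, s, λ)` for all the finite
extensions `L` of `k` (`IsDivisor`).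

**Theorem.**  (1) `∑_{j,s,λ} ∑_α Λ_{j,s,λ}(α) α ^ e = - τ_e`, so `Φ_1 = ∏_{j,s,λ} ∏_α (1 - α T) ^ Λ_{j,s,λ}(α)`.
(2) At `T = ζ q ^ (-(d + 1))`, `ζ` any root of unity, and in particular at `s = d + 1 = dim Y`, all these
functions have neither a zero nor a pole.

Since `rank J(K) ≤ ord Φ_1` (Tate), this means that both sides of Tate's conjecture are zero for `X` over
`K` and over `K k'`, for all the finite extensions `k'` of `k`; so `J` has rank zero over the (infinitely
generated) union of all these fields, for example over `k̄(t_0, ..., t_d)` with all `w ^ c - w = g`,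
`g = p(t_0) + γ_1 t_1 + ... + γ_d t_d`, `deg p ≤ D`, adjoined (these consequences are not formalized).

The proof is a `c`-adic estimate of the mixed sums of multiplicative and additive characters: Gauss sums turn
the characters of the `x - f_i` and `h_l` into additive characters, the sum over `x, t_1, ..., t_d` is then a
power of `q'` or zero, the sum over `t_0` is divisible by `q' ^ (1/D)`, and the Gauss sums are known by the
theorem of Stickelberger, after a Galois conjugation of the character which depends on `(j, s)`.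
-/

set_option autoImplicit false

namespace Pool.Agent.J6H9.AS.Wild

open Finset Polynomial

/-- The function `p(t₀) + γ₁ t₁ + ... + γ_d t_d` on the affine space with the coordinates
`t₀, ..., t_d`. -/
noncomputable def value {L : Type} [Field L] {d : ℕ} (p : L[X]) (γ : Fin d → L)
    (t : Fin (d + 1) → L) : L := p.eval (t 0) + ∑ o : Fin d, γ o * t o.succ

/-- The character of the group generated by the primitive root of unity `z` of order `N`, with `z ↦ μ`, at
`y` (and zero if `y` is not in this group). -/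
noncomputable def chr {L A : Type} [Field L] [CommRing A] (N : ℕ) (z : L) (μ : A) (y : L) : A := by
  classical exact ∑ k ∈ range N, if y = z ^ k then μ ^ k else 0

/-- The absolute trace `y + y ^ c + y ^ (c ^ 2) + ...` of the finite field `L` of characteristic `c`. -/
noncomputable def trace (L : Type) [Field L] [Fintype L] (c : ℕ) (y : L) : L :=
  ∑ m ∈ range (Nat.log c (Fintype.card L)), y ^ (c ^ m)

/-- The additive character `y ↦ ν ^ Tr(y)` of the finite field `L` of characteristic `c`. -/
noncomputable def addChr (L : Type) [Field L] [Fintype L] (A : Type) [CommRing A] (c : ℕ) (ν : A)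
    (y : L) : A := by
  classical exact ∑ i ∈ range c, if trace L c y = (i : L) then ν ^ i else 0

/-- The sum over the points `(x, t)` with coordinates in `L` of the values at
`∏ (x - f_i(t)) ^ (R (j a_i mod N)) * ∏ h_l(t) ^ (R (j a'_l mod N)) * ∏ h_l(t) ^ (N (s b_l mod R))` of the
character of order `N R` of `L` belonging to `z ↦ μ`, that is `y ↦ chr (y ^ ((|L| - 1) / (N R)))`, times
the values `ν ^ Tr(∑ λ_o g_o(t))` of the additive character. -/
noncomputable def charSum (L : Type) [Field L] [Fintype L] (A : Type) [CommRing A] (N R c : ℕ)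
    {d m n w : ℕ} (f : Fin m → L[X]) (γ : Fin m → Fin d → L) (a : Fin m → ℕ) (h : Fin n → L[X])
    (η : Fin n → Fin d → L) (a' b : Fin n → ℕ) (g : Fin w → L[X]) (θ : Fin w → Fin d → L) (z : L)
    (μ ν : A) (j s : ℕ) (lam : Fin w → Fin c) : A :=
  ∑ x : L, ∑ t : Fin (d + 1) → L, chr (N * R) z μ
    (((∏ i, (x - value (f i) (γ i) t) ^ (R * (j * a i % N))) *
      ((∏ l, (value (h l) (η l) t) ^ (R * (j * a' l % N))) *
      ∏ l, (value (h l) (η l) t) ^ (N * (s * b l % R)))) ^ ((Fintype.card L - 1) / (N * R))) *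
    addChr L A c ν (∑ o, ((lam o : ℕ) : L) * value (g o) (θ o) t)

/-- The number of the points `(t, u, w)` with coordinates in `L` and `u ^ R = ∏ h_l(t) ^ b_l`,
`w_o ^ c - w_o = g_o(t)` for all `o`. -/
noncomputable def basePoints (L : Type) [Field L] (R c : ℕ) {d n w : ℕ} (h : Fin n → L[X])
    (η : Fin n → Fin d → L) (b : Fin n → ℕ) (g : Fin w → L[X]) (θ : Fin w → Fin d → L) : ℕ :=
  Set.ncard {v : (Fin (d + 1) → L) × L × (Fin w → L) |
    v.2.1 ^ R = ∏ l, (value (h l) (η l) v.1) ^ b l ∧
    ∀ o, v.2.2 o ^ c - v.2.2 o = value (g o) (θ o) v.1}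

/-- The number of the points `((x, t), (u, y), w)` with coordinates in `L` and `u ^ R = ∏ h_l(t) ^ b_l`,
`y ^ N = ∏ (x - f_i(t)) ^ a_i * ∏ h_l(t) ^ a'_l`, `w_o ^ c - w_o = g_o(t)` for all `o`. -/
noncomputable def totalPoints (L : Type) [Field L] (N R c : ℕ) {d m n w : ℕ} (f : Fin m → L[X])
    (γ : Fin m → Fin d → L) (a : Fin m → ℕ) (h : Fin n → L[X]) (η : Fin n → Fin d → L)
    (a' b : Fin n → ℕ) (g : Fin w → L[X]) (θ : Fin w → Fin d → L) : ℕ :=
  Set.ncard {v : (L × (Fin (d + 1) → L)) × (L × L) × (Fin w → L) |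
    v.2.1.1 ^ R = ∏ l, (value (h l) (η l) v.1.2) ^ b l ∧
    v.2.1.2 ^ N = (∏ i, (v.1.1 - value (f i) (γ i) v.1.2) ^ a i) *
      ∏ l, (value (h l) (η l) v.1.2) ^ a' l ∧
    ∀ o, v.2.2 o ^ c - v.2.2 o = value (g o) (θ o) v.1.2}

/-- `∏_α (1 - α T) ^ Λ(α)` is the L-function of the character `(j, s, λ)`: for every finite extension `L`
of `k`, of degree `e`, the sum of the `Λ(α) α ^ e` is `charSum` over `L`. -/
def IsDivisor (k : Type) [Field k] [Fintype k] {E : Type} [Field E] (N R c : ℕ) {d m n w : ℕ}
    (f : Fin m → k[X]) (γ : Fin m → Fin d → k) (a : Fin m → ℕ) (h : Fin n → k[X])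
    (η : Fin n → Fin d → k) (a' b : Fin n → ℕ) (g : Fin w → k[X]) (θ : Fin w → Fin d → k) (z : k)
    (μ ν : E) (j s : ℕ) (lam : Fin w → Fin c) (Λ : E →₀ ℤ) : Prop :=
  ∀ (L : Type) [Field L] [Fintype L] [Algebra k L],
    Λ.sum (fun α w => (w : E) * α ^ Module.finrank k L)
      = charSum L E N R c (fun i => (f i).map (algebraMap k L)) (fun i o => algebraMap k L (γ i o)) a
        (fun l => (h l).map (algebraMap k L)) (fun l o => algebraMap k L (η l o)) a' b
        (fun l => (g l).map (algebraMap k L)) (fun l o => algebraMap k L (θ l o))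
        (algebraMap k L z) μ ν j s lam

/-- The order at `T₀` of the product over `0 < j < N`, `0 ≤ s < R`, `λ ∈ {0, ..., c - 1} ^ w` of the
functions `∏_α (1 - α T) ^ Λ_{j,s,λ}(α)`. -/
noncomputable def orderAt {E : Type} [Field E] (N R c w : ℕ) (Λ : ℕ → ℕ → (Fin w → Fin c) → E →₀ ℤ)
    (T₀ : E) : ℤ :=
  ∑ j ∈ Ico 1 N, ∑ s ∈ range R, ∑ lam : Fin w → Fin c, Λ j s lam T₀⁻¹

/-- **Tate's conjecture (`Φ_1` has neither a zero nor a pole at `s = dim Y`) for superelliptic Jacobians
over the function fields of wild and tame abelian coverings of affine spaces of arbitrary dimension.** -/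
theorem result (N R c D P Q d : ℕ) (hN : 2 ≤ N) (hR : 0 < R) (hRN : R.Coprime N)
    (hP : ∀ l : ℕ, l.Prime → l ∣ N → P ≤ l) (hQ : ∀ l : ℕ, l.Prime → l ∣ R → Q ≤ l)
    [Fact c.Prime] (hc : N * R ∣ c - 1) (k : Type) [Field k] [Fintype k] [CharP k c]
    (z : k) (hz : IsPrimitiveRoot z (N * R))
    (E : Type) [Field E] [CharZero E] [IsAlgClosed E] (μ ν : E) (hμ : IsPrimitiveRoot μ (N * R))
    (hν : IsPrimitiveRoot ν c) (m n w : ℕ) (hD : 1 ≤ D)
    (f : Fin m → k[X]) (γ : Fin m → Fin d → k) (hf : ∀ i, (f i).natDegree ≤ D)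
    (h : Fin n → k[X]) (η : Fin n → Fin d → k) (hh : ∀ l, (h l).natDegree ≤ D)
    (g : Fin w → k[X]) (θ : Fin w → Fin d → k) (hg : ∀ o, (g o).natDegree ≤ D)
    (a : Fin m → ℕ) (a' b : Fin n → ℕ) (ha : ∀ i, 0 < a i)
    (hab : D * (Q * (∑ i, a i + ∑ l, a' l) + P * ∑ l, b l) < P * Q)
    (Λ : ℕ → ℕ → (Fin w → Fin c) → E →₀ ℤ)
    (hΛ : ∀ j s lam, 0 < j → j < N → s < R →
      IsDivisor k N R c f γ a h η a' b g θ z μ ν j s lam (Λ j s lam)) :
    (∀ (L : Type) [Field L] [Fintype L] [Algebra k L],
      -∑ j ∈ Ico 1 N, ∑ s ∈ range R, ∑ lam : Fin w → Fin c,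
          (Λ j s lam).sum (fun α w => (w : E) * α ^ Module.finrank k L)
        = (Fintype.card L : E) * (basePoints L R c (fun l => (h l).map (algebraMap k L))
            (fun l o => algebraMap k L (η l o)) b (fun l => (g l).map (algebraMap k L))
            (fun l o => algebraMap k L (θ l o)) : E)
          - (totalPoints L N R c (fun i => (f i).map (algebraMap k L))
            (fun i o => algebraMap k L (γ i o)) a (fun l => (h l).map (algebraMap k L))
            (fun l o => algebraMap k L (η l o)) a' b (fun l => (g l).map (algebraMap k L))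
            (fun l o => algebraMap k L (θ l o)) : E)) ∧
    ∀ (T₀ : E) (M : ℕ), 0 < M → (T₀ * (Fintype.card k : E) ^ (d + 1)) ^ M = 1 →
      (∀ j s lam, 0 < j → j < N → s < R → Λ j s lam T₀⁻¹ = 0) ∧ orderAt N R c w Λ T₀ = 0 := by
  obtain ⟨h1, h2⟩ := Pool.Agent.J6H9.AS.fin_wild hN hR hRN hP hQ hc k hz hμ hν hD f γ hf h η hh g θ hg
    a a' b ha hab Λ (fun j s lam hj hjp hs L _ _ _ => hΛ j s lam hj hjp hs L)
  have h3 : ∀ (T₀ : E) (M : ℕ), 0 < M → (T₀ * (Fintype.card k : E) ^ (d + 1)) ^ M = 1 →
      ∀ j s lam, 0 < j → j < N → s < R → Λ j s lam T₀⁻¹ = 0 := by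
    intro T₀ M hM hT j s lam hj hjp hs
    refine h2 j s lam hj hjp hs T₀⁻¹ M hM ?_
    rw [mul_pow] at hT
    rw [inv_pow]
    exact inv_eq_of_mul_eq_one_right hT
  refine ⟨fun L _ _ _ => ?_, fun T₀ M hM hT => ⟨h3 T₀ M hM hT, ?_⟩⟩
  · have h4 := h1 L
    rw [h4, neg_sub]
    rfl
  · unfold orderAt
    refine sum_eq_zero fun j hj => sum_eq_zero fun s hs => sum_eq_zero fun lam _ => ?_
    rw [mem_Ico] at hj
    exact h3 T₀ M hM hT j s lam hj.1 hj.2 (mem_range.1 hs)

end Pool.Agent.J6H9.AS.Wild
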